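import Pool.Agent.helper81.WS.Spec
import Pool.Agent.helper85.PG.Basic
import Pool.Agent.helper57.PG.CB

/-! # Project ws (MP_f6e9a2_nt), row SPA: the cells with few points -/

set_option autoImplicit false

open Finset

namespace Pool.Agent.WS

open Module Pointwise

open Pool.Agent.helper85.PG (IsSys rr)

/-- the two error terms -/
theorem SPA_num (X a N n D ε : ℝ) (hX : 0 < X) (hn : 0 < n) (hD : n ≤ D)
    (ha : a = X ^ (1 / 2 + ε)) (h1 : a * D ≤ N * n ^ 2) (hN : 0 < N)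
    (h2 : N ^ 2 * n ≤ X ^ (1 + ε / 8)) (hX1 : 1 ≤ X) (hε : 0 ≤ ε) :
    n * (N * (N * D) + (N * (N * D)) ^ 2 / X) ≤
      2 * X ^ (-(1 + 15 * ε / 8)) * (N ^ 4 * n ^ 4) := by
  have ha0 : 0 < a := by rw [ha]; exact Real.rpow_pos_of_pos hX _
  have ha2 : a ^ 2 = X ^ (1 + 2 * ε) := by
    rw [ha, ← Real.rpow_natCast, ← Real.rpow_mul hX.le]
    congr 1
    push_cast
    ring
  have hD0 : 0 < D := lt_of_lt_of_le hn hD
  have h3 : a ≤ N * n := by
    have h4 : a * n ≤ (N * n) * n := by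
      calc a * n ≤ a * D := mul_le_mul_of_nonneg_left hD ha0.le
        _ ≤ N * n ^ 2 := h1
        _ = _ := by ring
    exact le_of_mul_le_mul_right h4 hn
  have hW : 0 < N ^ 4 * n ^ 4 := by positivity
  -- first term
  have t1 : n * (N * (N * D)) ≤ X ^ (-(1 + 15 * ε / 8)) * (N ^ 4 * n ^ 4) := by
    have e1 : a ^ 2 * (n * (N * (N * D))) ≤ N ^ 4 * n ^ 4 := by
      calc a ^ 2 * (n * (N * (N * D))) = a * (n * N ^ 2) * (a * D) := by ring
        _ ≤ (N * n) * (n * N ^ 2) * (N * n ^ 2) := by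
            apply mul_le_mul (mul_le_mul_of_nonneg_right h3 (by positivity)) h1 (by positivity)
              (by positivity)
        _ = _ := by ring
    have e2 : X ^ (1 + 15 * ε / 8) ≤ a ^ 2 := by
      rw [ha2]
      exact Real.rpow_le_rpow_of_exponent_le hX1 (by linarith)
    rw [Real.rpow_neg hX.le, inv_mul_eq_div, le_div_iff₀ (Real.rpow_pos_of_pos hX _)]
    calc n * (N * (N * D)) * X ^ (1 + 15 * ε / 8) ≤ n * (N * (N * D)) * a ^ 2 :=
          mul_le_mul_of_nonneg_left e2 (by positivity)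
      _ = a ^ 2 * (n * (N * (N * D))) := by ring
      _ ≤ _ := e1
  have t2 : n * ((N * (N * D)) ^ 2 / X) ≤ X ^ (-(1 + 15 * ε / 8)) * (N ^ 4 * n ^ 4) := by
    have e1 : a ^ 2 * (n * ((N * (N * D)) ^ 2)) ≤ N ^ 4 * n ^ 4 * X ^ (1 + ε / 8) := by
      calc a ^ 2 * (n * ((N * (N * D)) ^ 2)) = (n * N ^ 4) * (a * D) ^ 2 := by ring
        _ ≤ (n * N ^ 4) * (N * n ^ 2) ^ 2 := by
            apply mul_le_mul_of_nonneg_left _ (by positivity)
            exact pow_le_pow_left₀ (by positivity) h1 2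
        _ = N ^ 4 * n ^ 4 * (N ^ 2 * n) := by ring
        _ ≤ _ := mul_le_mul_of_nonneg_left h2 hW.le
    have e3 : X ^ (1 + 15 * ε / 8) * X ^ (1 + ε / 8) = X * a ^ 2 := by
      rw [ha2, ← Real.rpow_add hX]
      nth_rewrite 2 [← Real.rpow_one X]
      rw [← Real.rpow_add hX]
      congr 1
      ring
    have hXp : 0 < X ^ (1 + ε / 8) := Real.rpow_pos_of_pos hX _
    have hXq : 0 < X ^ (1 + 15 * ε / 8) := Real.rpow_pos_of_pos hX _
    rw [Real.rpow_neg hX.le, inv_mul_eq_div, le_div_iff₀ hXq]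
    have e4 : n * ((N * (N * D)) ^ 2 / X) * X ^ (1 + 15 * ε / 8) * X ^ (1 + ε / 8) =
        a ^ 2 * (n * ((N * (N * D)) ^ 2)) := by
      rw [mul_assoc, e3]
      field_simp
    have e5 : n * ((N * (N * D)) ^ 2 / X) * X ^ (1 + 15 * ε / 8) * X ^ (1 + ε / 8) ≤
        N ^ 4 * n ^ 4 * X ^ (1 + ε / 8) := by rw [e4]; exact e1
    exact le_of_mul_le_mul_right e5 hXp
  calc n * (N * (N * D) + (N * (N * D)) ^ 2 / X) =
      n * (N * (N * D)) + n * ((N * (N * D)) ^ 2 / X) := by ring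
    _ ≤ X ^ (-(1 + 15 * ε / 8)) * (N ^ 4 * n ^ 4) +
        X ^ (-(1 + 15 * ε / 8)) * (N ^ 4 * n ^ 4) := add_le_add t1 t2
    _ = _ := by ring

/-- the sum over the units -/
theorem SPA_units {p : ℕ} [Fact p.Prime] (M : Finset (ZMod p)ˣ) (H : Finset (ZMod p))
    (hM : ∀ m ∈ M, (m : ZMod p) ∈ H) (F : ZMod p → ZMod p → ℝ) (hF : ∀ x y, 0 ≤ F x y) :
    ∑ m ∈ M, ∑ m' ∈ M, F (m : ZMod p) (m' : ZMod p) ≤ ∑ h ∈ H, ∑ h' ∈ H, F h h' := by
  classical
  have h1 : M.image (fun u : (ZMod p)ˣ => (u : ZMod p)) ⊆ H := by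
    intro x hx
    obtain ⟨m, hm, rfl⟩ := Finset.mem_image.1 hx
    exact hM m hm
  have h2 : ∀ G : ZMod p → ℝ, ∑ m ∈ M, G (m : ZMod p) =
      ∑ x ∈ M.image (fun u : (ZMod p)ˣ => (u : ZMod p)), G x := by
    intro G
    rw [Finset.sum_image (fun x _ y _ h => Units.ext h)]
  calc ∑ m ∈ M, ∑ m' ∈ M, F (m : ZMod p) (m' : ZMod p)
      = ∑ m ∈ M, ∑ y ∈ M.image (fun u : (ZMod p)ˣ => (u : ZMod p)), F (m : ZMod p) y := by
        refine Finset.sum_congr rfl fun m _ => ?_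
        exact h2 (fun y => F (m : ZMod p) y)
    _ = ∑ x ∈ M.image (fun u : (ZMod p)ˣ => (u : ZMod p)),
        ∑ y ∈ M.image (fun u : (ZMod p)ˣ => (u : ZMod p)), F x y :=
        h2 (fun x => ∑ y ∈ M.image (fun u : (ZMod p)ˣ => (u : ZMod p)), F x y)
    _ ≤ ∑ x ∈ H, ∑ y ∈ M.image (fun u : (ZMod p)ˣ => (u : ZMod p)), F x y :=
        Finset.sum_le_sum_of_subset_of_nonneg h1 fun x _ _ => Finset.sum_nonneg fun y _ => hF x y
    _ ≤ _ := Finset.sum_le_sum fun x _ =>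
        Finset.sum_le_sum_of_subset_of_nonneg h1 fun y _ _ => hF x y

theorem SPA (hPKC : Pool.Agent.helper85.PG.PKC_stmt) (hCOS : COS_stmt) (hENR : ENR_stmt) :
    SPA_stmt := by
  classical
  intro d ε hε
  set e0 : ℝ := min ε 1 with he0
  have he0pos : 0 < e0 := lt_min hε one_pos
  have he01 : e0 ≤ 1 := min_le_right _ _
  have he0ε : e0 ≤ ε := min_le_left _ _
  have hd0 : (0 : ℝ) ≤ d := Nat.cast_nonneg d
  have hd1 : (0 : ℝ) < (d : ℝ) + 1 := by linarith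
  refine ⟨e0 / (16 * ((d : ℝ) + 1)), by positivity, ?_⟩
  intro τ hτ0 hττ
  have hττ' : τ * (16 * ((d : ℝ) + 1)) ≤ e0 := by
    rwa [le_div_iff₀ (by positivity)] at hττ
  set σ : ℝ := e0 / (8 * ((d : ℝ) + 1)) with hσ
  have hσ0 : 0 < σ := by positivity
  have hσe : σ * (8 * ((d : ℝ) + 1)) = e0 := by
    rw [hσ]
    field_simp
  obtain ⟨k, p2, δ, hk, hδ, key⟩ := Pool.Agent.helper82.Weil.asymp_three σ hσ0
  obtain ⟨p1, hE⟩ := hENR d (e0 / 4) (by positivity)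
  obtain ⟨p3, hp3⟩ := Pool.Agent.helper85.PG.CB_large σ (3 + 3 ^ d) hσ0
  obtain ⟨p4, hp4⟩ := Pool.Agent.helper85.PG.CB_large δ (5 ^ d) hδ
  obtain ⟨p5, hp5'⟩ := Pool.Agent.helper85.PG.CB_large (3 * e0 / 4)
    (29 ^ (2 * d) * (2 * (2 * 3 ^ d) ^ 2)) (by positivity)
  refine ⟨δ, max (max p1 (p2 + 1)) (max (max p3 p4) p5), hδ, ?_⟩
  intro p _ hp P Q hP hQ s B hBs hPε hND hNN hsp χ hχ β hβ
  have hpp1 : p1 ≤ p := (le_max_left _ _).trans ((le_max_left _ _).trans hp)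
  have hpp2 : p2 < p := (le_max_right p1 (p2 + 1)).trans ((le_max_left _ _).trans hp)
  have hpp3 : p3 ≤ p :=
    (le_max_left _ _).trans ((le_max_left _ _).trans ((le_max_right _ _).trans hp))
  have hpp4 : p4 ≤ p :=
    (le_max_right _ _).trans ((le_max_left _ _).trans ((le_max_right _ _).trans hp))
  have hpp5 : p5 ≤ p := (le_max_right _ _).trans ((le_max_right _ _).trans hp)
  replace hp3 := hp3 p hpp3
  replace hp4 := hp4 p hpp4
  replace hp5' := hp5' p hpp5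
  replace key := key p hpp2
  replace hE := (hE p hpp1 P Q hP hQ).2
  have hprime : p.Prime := Fact.out
  have hX1 : (1 : ℝ) < p := by exact_mod_cast hprime.one_lt
  set X : ℝ := (p : ℝ) with hX
  have hX0 : 0 < X := by linarith
  set t0 : ℝ := X ^ σ with ht0
  have h3d : (1 : ℝ) ≤ 3 ^ d := one_le_pow₀ (by norm_num)
  have ht3 : 4 ≤ t0 := by linarith
  have ht00 : 0 < t0 := by linarith
  have ht01 : 1 ≤ t0 := by linarith
  have ht3d : 3 ^ d < t0 := by linarith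
  set U : ℝ := t0 ^ (4 * (d + 1)) with hU
  have hUe : U ≤ X ^ e0 := by
    rw [hU, ht0, ← Real.rpow_natCast, ← Real.rpow_mul hX0.le]
    refine Real.rpow_le_rpow_of_exponent_le hX1.le ?_
    push_cast
    nlinarith
  set N1 : ℝ := ((P 1).card : ℝ) with hN1
  set N2 : ℝ := (B.card : ℝ) with hN2
  set D : ℝ := ((Q 1).card : ℝ) with hDD
  have hUN1 : U ≤ N1 :=
    hUe.trans ((Real.rpow_le_rpow_of_exponent_le hX1.le he0ε).trans hPε)
  have hU1 : 1 ≤ U := one_le_pow₀ ht01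
  have hN10 : 0 < N1 := by linarith
  have hD0 : 0 < D := by
    rw [hDD]
    exact_mod_cast hQ.card_pos zero_le_one
  have hN20 : 0 < N2 := by
    by_contra hcon
    have h1 : N2 = 0 := le_antisymm (not_lt.1 hcon) (Nat.cast_nonneg _)
    rw [h1] at hND
    have h2 : 0 < X ^ (1 / 2 + ε) * D := mul_pos (Real.rpow_pos_of_pos hX0 _) hD0
    have h3 : N1 * (0 : ℝ) ^ 2 = 0 := by ring
    linarith
  have hN2D : N2 ≤ D := by
    have h1 : B.card ≤ (Q 1).card := by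
      refine Finset.card_le_card_of_injOn (fun b => b - s) (fun b hb => hBs b hb) ?_
      intro x _ y _ h
      exact sub_left_injective h
    rw [hN2, hDD]
    exact_mod_cast h1
  -- sizes
  set μ : ℝ := (t0 ^ 2)⁻¹ with hμ
  have ht2 : 1 ≤ t0 ^ 2 := one_le_pow₀ ht01
  have hμ0 : 0 < μ := by positivity
  have hμ1 : μ ≤ 1 := inv_le_one_of_one_le₀ ht2
  set f : ℝ := ((P μ).card : ℝ) with hf
  have hN1f : N1 ≤ (3 ^ d * t0 ^ (2 * d)) * f := by
    have h := (hPKC.2.2 p d P hP 1 μ zero_le_one hμ0).1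
    refine h.trans (mul_le_mul_of_nonneg_right ?_ (Nat.cast_nonneg _))
    have h1 : 1 + 2 * 1 / μ ≤ 3 * t0 ^ 2 := by
      rw [hμ, div_inv_eq_mul]
      linarith
    calc (1 + 2 * 1 / μ) ^ d ≤ (3 * t0 ^ 2) ^ d := pow_le_pow_left₀ (by positivity) h1 d
      _ = _ := by rw [mul_pow, ← pow_mul]
  have hf2 : 2 ≤ f := by
    have h1 : 1 < f := by
      by_contra hcon
      have hf1 : f ≤ 1 := not_lt.1 hcon
      have h2 : N1 ≤ 3 ^ d * t0 ^ (2 * d) := by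
        refine hN1f.trans ?_
        exact mul_le_of_le_one_right (by positivity) hf1
      have h3 : 3 ^ d * t0 ^ (2 * d) < t0 * t0 ^ (2 * d) :=
        mul_lt_mul_of_pos_right ht3d (by positivity)
      have h4 : t0 * t0 ^ (2 * d) ≤ U := by
        rw [hU, ← pow_succ']
        exact pow_le_pow_right₀ ht01 (by omega)
      linarith
    rw [hf] at h1 ⊢
    exact_mod_cast h1
  set M : Finset (ZMod p)ˣ := (Finset.univ : Finset (ZMod p)ˣ).filter
    (fun u : (ZMod p)ˣ => (u : ZMod p) ∈ P μ) with hM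
  have hMcard : (M.card : ℝ) = f - 1 := by
    rw [hM, Pool.Agent.helper85.PG.CB_units_card, Finset.card_erase_of_mem (hP.zero_mem hμ0.le),
      Nat.cast_sub (hP.card_pos hμ0.le), Nat.cast_one]
  have hMf : f ≤ 2 * M.card := by rw [hMcard]; linarith
  have hMpos : (0 : ℝ) < M.card := by rw [hMcard]; linarith
  have hmN1 : N1 ≤ (2 * 3 ^ d) * t0 ^ (2 * d) * M.card := by
    refine hN1f.trans ?_
    calc (3 ^ d * t0 ^ (2 * d)) * f ≤ (3 ^ d * t0 ^ (2 * d)) * (2 * M.card) :=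
          mul_le_mul_of_nonneg_left hMf (by positivity)
      _ = _ := by ring
  -- the set T
  set n : ℕ := ⌊2 * t0⌋₊ with hn
  have hn1 : (n : ℝ) ≤ 2 * t0 := Nat.floor_le (by positivity)
  have hn2 : 2 * t0 < n + 1 := Nat.lt_floor_add_one _
  have hUX : U ≤ X := by
    refine hUe.trans ?_
    calc X ^ e0 ≤ X ^ (1 : ℝ) := Real.rpow_le_rpow_of_exponent_le hX1.le he01
      _ = X := Real.rpow_one X
  have h2t : 2 * t0 < t0 ^ 2 := by
    rw [sq]
    exact mul_lt_mul_of_pos_right (by linarith) ht00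
  have hnp : n < p := by
    have h1 : t0 ^ 2 ≤ U := by
      rw [hU]
      exact pow_le_pow_right₀ ht01 (by omega)
    have h2 : (n : ℝ) < p := by
      calc (n : ℝ) ≤ 2 * t0 := hn1
        _ < t0 ^ 2 := h2t
        _ ≤ X := h1.trans hUX
    exact_mod_cast h2
  set T : Finset (ZMod p) := (Finset.Icc 1 n).image (fun y : ℕ => (y : ZMod p)) with hT
  have hTcard : T.card = n := Pool.Agent.helper85.PG.CB_classes (p := p) n hnp
  -- the pair bound
  have habs : ∀ a ∈ P 1, ∀ m ∈ M, ∀ t ∈ T, a - (m : ZMod p) * t ∈ P 2 := by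
    intro a ha m hm t ht
    rw [hM, Finset.mem_filter] at hm
    rw [hT, Finset.mem_image] at ht
    obtain ⟨y, hy, rfl⟩ := ht
    rw [Finset.mem_Icc] at hy
    have h1 := hP.nat_mul_mem hm.2 y
    have h2 : (y : ℝ) * μ ≤ 1 := by
      have h3 : (y : ℝ) ≤ t0 ^ 2 := by
        have h4 : (y : ℝ) ≤ n := by exact_mod_cast hy.2
        exact h4.trans (hn1.trans h2t.le)
      rw [hμ]
      calc (y : ℝ) * (t0 ^ 2)⁻¹ ≤ t0 ^ 2 * (t0 ^ 2)⁻¹ :=
            mul_le_mul_of_nonneg_right h3 (by positivity)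
        _ = 1 := mul_inv_cancel₀ (by positivity)
    have h5 := hP.sub_mem ha (hP.mono h2 h1)
    rw [mul_comm (m : ZMod p)]
    have h6 : (1 : ℝ) + 1 = 2 := by norm_num
    rw [h6] at h5
    exact h5
  have hpb := Pool.Agent.helper46.PY.pair_bound χ hχ (P 1) (P 2) T B M habs β hβ k hk
  rw [ZMod.card] at hpb
  -- collisions
  set κ : ℝ := X ^ τ * (29 * X ^ (3 * τ)) ^ d with hκ
  have hκ0 : 0 ≤ κ := by positivity
  have hcol := hCOS p M (P 2) B (P 8 + Q 8) κ hκ0 hsp (by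
    intro x hx x' hx' b hb b' hb'
    have h1 : x - x' ∈ P 8 := hP.mono (by norm_num) (hP.sub_mem hx hx')
    have h2 : b - b' ∈ Q 8 := by
      have h3 := hQ.sub_mem (hBs b hb) (hBs b' hb')
      have h4 : b - s - (b' - s) = b - b' := by ring
      rw [h4] at h3
      exact hQ.mono (by norm_num) h3
    have h5 : x + b - (x' + b') = (x - x') + (b - b') := by ring
    rw [h5]
    exact Finset.add_mem_add h1 h2)
  set Y : ℝ := ∑ z : ZMod p × ZMod p,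
    (∑ t ∈ M, (Pool.Agent.helper46.PY.cnt (P 2) B (t • z) : ℝ)) ^ 2 with hY
  have hY0 : 0 ≤ Y := Finset.sum_nonneg fun _ _ => sq_nonneg _
  have hsumM : ∑ m ∈ M, ∑ m' ∈ M, (rr (P 8 + Q 8) ((m : ZMod p) / (m' : ZMod p)) : ℝ) ≤
      X ^ (e0 / 4) * (N1 * (N1 * D) + (N1 * (N1 * D)) ^ 2 / X) := by
    refine le_trans (SPA_units M ((P 1).erase 0) ?_
      (fun x y => (rr (P 8 + Q 8) (x / y) : ℝ)) (fun _ _ => Nat.cast_nonneg _)) hE
    intro m hm
    rw [hM, Finset.mem_filter] at hm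
    exact Finset.mem_erase.2 ⟨m.ne_zero, hP.mono hμ1 hm.2⟩
  have hYb : Y ≤ κ ^ 2 * X ^ (e0 / 4) * (2 * X ^ (-(1 + 15 * ε / 8)) * (N1 ^ 4 * N2 ^ 4)) := by
    refine hcol.trans ?_
    calc κ ^ 2 * N2 * ∑ m ∈ M, ∑ m' ∈ M, (rr (P 8 + Q 8) ((m : ZMod p) / (m' : ZMod p)) : ℝ)
        ≤ κ ^ 2 * N2 * (X ^ (e0 / 4) * (N1 * (N1 * D) + (N1 * (N1 * D)) ^ 2 / X)) :=
          mul_le_mul_of_nonneg_left hsumM (by positivity)
      _ = κ ^ 2 * X ^ (e0 / 4) * (N2 * (N1 * (N1 * D) + (N1 * (N1 * D)) ^ 2 / X)) := by ring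
      _ ≤ _ := by
        refine mul_le_mul_of_nonneg_left ?_ (by positivity)
        exact SPA_num X _ N1 N2 D ε hX0 hN20 hN2D rfl hND hN10 hNN hX1.le hε.le
  have hp5 : ((P 2).card : ℝ) ≤ 5 ^ d * N1 := by
    have h := (hPKC.2.2 p d P hP 2 1 (by norm_num) one_pos).1
    have h1 : (1 : ℝ) + 2 * 2 / 1 = 5 := by norm_num
    rw [h1] at h
    exact h
  have hπ : N1 ≤ ((P 2).card : ℝ) := by
    rw [hN1]
    exact_mod_cast Finset.card_le_card (hP.mono (by norm_num))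
  have hfin : Y * X ^ (1 + σ) ≤ ((M.card : ℝ) * (P 2).card * N2 ^ 2) ^ 2 := by
    have hq0 : (0 : ℝ) ≤ ((P 2).card : ℝ) := Nat.cast_nonneg _
    have hm0 : (0 : ℝ) ≤ M.card := hMpos.le
    have hl1 : N1 * N1 ≤ ((2 * 3 ^ d) * t0 ^ (2 * d) * M.card) * ((P 2).card : ℝ) :=
      mul_le_mul hmN1 hπ hN10.le (by positivity)
    have hl2 : (N1 * N1) ^ 2 ≤ (((2 * 3 ^ d) * t0 ^ (2 * d) * M.card) * ((P 2).card : ℝ)) ^ 2 :=
      pow_le_pow_left₀ (by positivity) hl1 2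
    have hl3 : N1 ^ 4 * N2 ^ 4 ≤ ((2 * 3 ^ d) ^ 2 * t0 ^ (4 * d)) *
        ((M.card : ℝ) * (P 2).card * N2 ^ 2) ^ 2 := by
      calc N1 ^ 4 * N2 ^ 4 = (N1 * N1) ^ 2 * N2 ^ 4 := by ring
        _ ≤ (((2 * 3 ^ d) * t0 ^ (2 * d) * M.card) * ((P 2).card : ℝ)) ^ 2 * N2 ^ 4 :=
            mul_le_mul_of_nonneg_right hl2 (by positivity)
        _ = _ := by ring
    have hc0 : 0 < (2 * 3 ^ d : ℝ) ^ 2 * t0 ^ (4 * d) := by positivity
    -- the exponent
    have hexp : (2 * 3 ^ d : ℝ) ^ 2 * t0 ^ (4 * d) *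
        (κ ^ 2 * X ^ (e0 / 4) * (2 * X ^ (-(1 + 15 * ε / 8))) * X ^ (1 + σ)) ≤ 1 := by
      have h1 : t0 ^ (4 * d) = X ^ (σ * (4 * d)) := by
        rw [ht0, ← Real.rpow_natCast, ← Real.rpow_mul hX0.le]
        push_cast
        ring_nf
      have h2 : κ ^ 2 = 29 ^ (2 * d) * X ^ (2 * τ + 6 * d * τ) := by
        have h3 : X ^ (2 * τ + 6 * d * τ) = (X ^ τ) ^ 2 * ((X ^ (3 * τ)) ^ d) ^ 2 := by
          rw [← pow_mul, ← Real.rpow_natCast, ← Real.rpow_natCast (X ^ (3 * τ)),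
            ← Real.rpow_mul hX0.le, ← Real.rpow_mul hX0.le, ← Real.rpow_add hX0]
          congr 1
          push_cast
          ring
        rw [h3, hκ, mul_pow 29]
        ring
      calc (2 * 3 ^ d : ℝ) ^ 2 * t0 ^ (4 * d) *
          (κ ^ 2 * X ^ (e0 / 4) * (2 * X ^ (-(1 + 15 * ε / 8))) * X ^ (1 + σ))
          = (29 ^ (2 * d) * (2 * (2 * 3 ^ d) ^ 2)) * (X ^ (σ * (4 * d)) *
            (X ^ (2 * τ + 6 * d * τ) * (X ^ (e0 / 4) * (X ^ (-(1 + 15 * ε / 8)) *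
              X ^ (1 + σ))))) := by rw [h1, h2]; ring
        _ ≤ X ^ (3 * e0 / 4) * (X ^ (σ * (4 * d)) *
            (X ^ (2 * τ + 6 * d * τ) * (X ^ (e0 / 4) * (X ^ (-(1 + 15 * ε / 8)) *
              X ^ (1 + σ))))) := mul_le_mul_of_nonneg_right hp5' (by positivity)
        _ = X ^ (3 * e0 / 4 + (σ * (4 * d) + (2 * τ + 6 * d * τ + (e0 / 4 +
              (-(1 + 15 * ε / 8) + (1 + σ)))))) := by
            rw [← Real.rpow_add hX0, ← Real.rpow_add hX0, ← Real.rpow_add hX0,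
              ← Real.rpow_add hX0, ← Real.rpow_add hX0]
        _ ≤ X ^ (0 : ℝ) := by
            refine Real.rpow_le_rpow_of_exponent_le hX1.le ?_
            have q1 : σ * (4 * d) + σ ≤ e0 / 2 := by nlinarith
            have q2 : 2 * τ + 6 * d * τ ≤ 3 * e0 / 8 := by nlinarith
            linarith
        _ = 1 := Real.rpow_zero X
    have h6 : ((2 * 3 ^ d : ℝ) ^ 2 * t0 ^ (4 * d)) * (Y * X ^ (1 + σ)) ≤
        ((2 * 3 ^ d : ℝ) ^ 2 * t0 ^ (4 * d)) *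
          ((M.card : ℝ) * (P 2).card * N2 ^ 2) ^ 2 := by
      refine le_trans ?_ hl3
      have hXt : 0 ≤ X ^ (1 + σ) := Real.rpow_nonneg hX0.le _
      calc ((2 * 3 ^ d : ℝ) ^ 2 * t0 ^ (4 * d)) * (Y * X ^ (1 + σ))
          ≤ ((2 * 3 ^ d : ℝ) ^ 2 * t0 ^ (4 * d)) *
            ((κ ^ 2 * X ^ (e0 / 4) * (2 * X ^ (-(1 + 15 * ε / 8)) * (N1 ^ 4 * N2 ^ 4))) *
              X ^ (1 + σ)) :=
            mul_le_mul_of_nonneg_left (mul_le_mul_of_nonneg_right hYb hXt) hc0.le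
        _ = ((2 * 3 ^ d : ℝ) ^ 2 * t0 ^ (4 * d) *
            (κ ^ 2 * X ^ (e0 / 4) * (2 * X ^ (-(1 + 15 * ε / 8))) * X ^ (1 + σ))) *
            (N1 ^ 4 * N2 ^ 4) := by ring
        _ ≤ 1 * (N1 ^ 4 * N2 ^ 4) :=
            mul_le_mul_of_nonneg_right hexp (by positivity)
        _ = _ := one_mul _
    exact le_of_mul_le_mul_left h6 hc0
  have hTt : X ^ σ < (T.card : ℝ) := by
    rw [hTcard]
    linarith
  set S : ZMod p → ℂ := fun a => ∑ b ∈ B, β b * χ (a + b) with hS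
  set EE : ℝ := ∑ a ∈ P 1, ‖S a‖ ^ 2 with hEE
  have hEE0 : 0 ≤ EE := Finset.sum_nonneg fun _ _ => sq_nonneg _
  have hEEb : EE ≤ (X ^ (-δ) * N2) ^ 2 * N1 := by
    refine key (M.card : ℝ) (T.card : ℝ) N1 ((P 2).card : ℝ) N2 Y EE hMpos hTt hN10.le
      (Nat.cast_nonneg _) ?_ hN20.le hY0 hEE0 hpb hfin
    exact hp5.trans (mul_le_mul_of_nonneg_right hp4 hN10.le)
  -- Cauchy-Schwarz
  have hXδ : 0 ≤ X ^ (-δ) := Real.rpow_nonneg hX0.le _
  have hS0 : 0 ≤ ∑ a ∈ P 1, ‖S a‖ := Finset.sum_nonneg fun _ _ => norm_nonneg _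
  have hR0 : 0 ≤ X ^ (-δ) * (N1 * N2) := mul_nonneg hXδ (mul_nonneg hN10.le hN20.le)
  refine (pow_le_pow_iff_left₀ hS0 hR0 two_ne_zero).1 ?_
  calc (∑ a ∈ P 1, ‖S a‖) ^ 2 ≤ ((P 1).card : ℝ) * ∑ a ∈ P 1, ‖S a‖ ^ 2 := sq_sum_le_card_mul_sum_sq
    _ ≤ N1 * ((X ^ (-δ) * N2) ^ 2 * N1) := mul_le_mul_of_nonneg_left hEEb hN10.le
    _ = _ := by ring

end Pool.Agent.WS
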