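import Pool.Agent.helper81.WS.Spec
import Pool.Agent.helper57.PG.CB

/-! # Project ws (MP_f6e9a2_nt), row KAR: large `B` -/

set_option autoImplicit false

open Finset

namespace Pool.Agent.WS

open Module Pointwise

open Pool.Agent.helper85.PG (IsSys rr)

theorem KAR_dual {p : ℕ} [Fact p.Prime] (χ : MulChar (ZMod p) ℂ) (A B : Finset (ZMod p))
    (β : ZMod p → ℂ) (hβ : ∀ b, ‖β b‖ ≤ 1) :
    ∃ α : ZMod p → ℂ, (∀ a, ‖α a‖ ≤ 1) ∧
      ∑ a ∈ A, ‖∑ b ∈ B, β b * χ (a + b)‖ ≤ ∑ b ∈ B, ‖∑ a ∈ A, α a * χ (a + b)‖ := by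
  have h1 : ∀ a : ZMod p, ∃ u : ℂ, ‖u‖ ≤ 1 ∧
      ((‖∑ b ∈ B, β b * χ (a + b)‖ : ℝ) : ℂ) = u * ∑ b ∈ B, β b * χ (a + b) := by
    intro a
    by_cases h : ∑ b ∈ B, β b * χ (a + b) = 0
    · refine ⟨0, by simp, ?_⟩
      rw [h]
      simp
    · set z := ∑ b ∈ B, β b * χ (a + b) with hz
      have hn : (‖z‖ : ℂ) ≠ 0 := by
        exact_mod_cast (norm_ne_zero_iff.2 h)
      refine ⟨(‖z‖ : ℂ) / z, ?_, ?_⟩
      · rw [norm_div, Complex.norm_real, norm_norm, div_self (norm_ne_zero_iff.2 h)]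
      · rw [div_mul_cancel₀ _ h]
  choose α hα1 hα2 using h1
  refine ⟨α, hα1, ?_⟩
  have h2 : ((∑ a ∈ A, ‖∑ b ∈ B, β b * χ (a + b)‖ : ℝ) : ℂ) =
      ∑ b ∈ B, β b * ∑ a ∈ A, α a * χ (a + b) := by
    push_cast
    calc ∑ a ∈ A, ((‖∑ b ∈ B, β b * χ (a + b)‖ : ℝ) : ℂ)
        = ∑ a ∈ A, ∑ b ∈ B, β b * (α a * χ (a + b)) := by
          refine Finset.sum_congr rfl fun a _ => ?_
          rw [hα2 a, Finset.mul_sum]
          exact Finset.sum_congr rfl fun b _ => by ring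
      _ = ∑ b ∈ B, ∑ a ∈ A, β b * (α a * χ (a + b)) := Finset.sum_comm
      _ = _ := Finset.sum_congr rfl fun b _ => by rw [Finset.mul_sum]
  have h3 : 0 ≤ ∑ a ∈ A, ‖∑ b ∈ B, β b * χ (a + b)‖ := Finset.sum_nonneg fun _ _ => norm_nonneg _
  calc ∑ a ∈ A, ‖∑ b ∈ B, β b * χ (a + b)‖
      = ‖((∑ a ∈ A, ‖∑ b ∈ B, β b * χ (a + b)‖ : ℝ) : ℂ)‖ := by
        rw [Complex.norm_real, Real.norm_eq_abs, abs_of_nonneg h3]
    _ = ‖∑ b ∈ B, β b * ∑ a ∈ A, α a * χ (a + b)‖ := by rw [h2]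
    _ ≤ ∑ b ∈ B, ‖β b * ∑ a ∈ A, α a * χ (a + b)‖ := norm_sum_le _ _
    _ ≤ _ := by
        refine Finset.sum_le_sum fun b _ => ?_
        rw [norm_mul]
        exact mul_le_of_le_one_left (norm_nonneg _) (hβ b)

theorem KAR (hTMO : Pool.Agent.helper85.PG.TMO_stmt) : KAR_stmt := by
  intro ε hε
  obtain ⟨k, hk⟩ : ∃ k : ℕ, k = ⌈1 / ε⌉₊ := ⟨_, rfl⟩
  have hkε : 1 / ε ≤ k := by rw [hk]; exact Nat.le_ceil _
  have hk0 : (0 : ℝ) < k := lt_of_lt_of_le (by positivity) hkε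
  have hk1 : 1 ≤ k := by exact_mod_cast hk0
  have hkε' : 1 ≤ ε * k := by
    rw [div_le_iff₀ hε] at hkε
    linarith
  obtain ⟨p0, hp0⟩ := Pool.Agent.helper85.PG.CB_large (ε / 2)
    ((k : ℝ) ^ (2 * k) + 2 * k) (by positivity)
  refine ⟨ε / (4 * k), p0, by positivity, ?_⟩
  intro p _ hp A B hA hB χ hχ β hβ
  replace hp0 := hp0 p hp
  have hprime : p.Prime := Fact.out
  have hX1 : (1 : ℝ) < p := by exact_mod_cast hprime.one_lt
  set X : ℝ := (p : ℝ) with hX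
  have hX0 : 0 < X := by linarith
  obtain ⟨α, hα, hdual⟩ := KAR_dual χ A B β hβ
  refine hdual.trans ?_
  set a : ℝ := (A.card : ℝ) with ha
  set b : ℝ := (B.card : ℝ) with hb
  have ha0 : 0 < a := lt_of_lt_of_le (Real.rpow_pos_of_pos hX0 _) hA
  have hb0 : 0 < b := lt_of_lt_of_le (Real.rpow_pos_of_pos hX0 _) hB
  set f : ZMod p → ℝ := fun u => ‖∑ x ∈ A, α x * χ (x + u)‖ with hf
  have hf0 : ∀ u, 0 ≤ f u := fun u => norm_nonneg _
  have hmom := hTMO p χ hχ k A α hα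
  have hpm : (∑ u ∈ B, f u) ^ (2 * k) / b ^ (2 * k - 1) ≤ ∑ u ∈ B, f u ^ (2 * k) := by
    have h1 := pow_sum_div_card_le_sum_pow (s := B) (f := f) (fun u _ => hf0 u) (2 * k - 1)
    have h2 : 2 * k - 1 + 1 = 2 * k := by omega
    rw [h2] at h1
    exact h1
  have hle : ∑ u ∈ B, f u ^ (2 * k) ≤ ∑ u : ZMod p, f u ^ (2 * k) :=
    Finset.sum_le_sum_of_subset_of_nonneg (Finset.subset_univ _)
      fun u _ _ => pow_nonneg (hf0 u) _
  have hR0 : 0 ≤ X ^ (-(ε / (4 * k))) * (a * b) := by positivity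
  have hL0 : 0 ≤ ∑ u ∈ B, f u := Finset.sum_nonneg fun u _ => hf0 u
  refine (pow_le_pow_iff_left₀ hL0 hR0 (by omega : 2 * k ≠ 0)).1 ?_
  have hbp : 0 < b ^ (2 * k - 1) := by positivity
  have h3 : (∑ u ∈ B, f u) ^ (2 * k) ≤ b ^ (2 * k - 1) *
      ((k : ℝ) ^ (2 * k) * a ^ k * X + a ^ (2 * k) * (2 * k * Real.sqrt X)) := by
    have h4 := hpm.trans (hle.trans hmom)
    rw [div_le_iff₀ hbp] at h4
    rw [mul_comm (b ^ (2 * k - 1))]
    exact h4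
  refine h3.trans ?_
  -- the numbers
  have hak : Real.sqrt X ≤ a ^ k := by
    calc Real.sqrt X = X ^ (1 / 2 : ℝ) := Real.sqrt_eq_rpow X
      _ ≤ X ^ (ε * k) := Real.rpow_le_rpow_of_exponent_le hX1.le (by linarith)
      _ = (X ^ ε) ^ k := by rw [Real.rpow_mul hX0.le, Real.rpow_natCast]
      _ ≤ a ^ k := pow_le_pow_left₀ (by positivity) hA k
  have hbs : X ^ ε * Real.sqrt X ≤ b := by
    refine le_trans (le_of_eq ?_) hB
    rw [Real.sqrt_eq_rpow, ← Real.rpow_add hX0]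
    congr 1
    ring
  have hs0 : 0 ≤ Real.sqrt X := Real.sqrt_nonneg _
  have hXε : 0 < X ^ ε := Real.rpow_pos_of_pos hX0 _
  have h5 : X ^ ε * ((k : ℝ) ^ (2 * k) * a ^ k * X + a ^ (2 * k) * (2 * k * Real.sqrt X)) ≤
      ((k : ℝ) ^ (2 * k) + 2 * k) * (a ^ (2 * k) * b) := by
    have h6 : X ^ ε * X ≤ a ^ k * b := by
      calc X ^ ε * X = Real.sqrt X * (X ^ ε * Real.sqrt X) := by
            linear_combination (-(X ^ ε)) * Real.mul_self_sqrt hX0.le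
        _ ≤ a ^ k * b := mul_le_mul hak hbs (by positivity) (by positivity)
    calc X ^ ε * ((k : ℝ) ^ (2 * k) * a ^ k * X + a ^ (2 * k) * (2 * k * Real.sqrt X))
        = (k : ℝ) ^ (2 * k) * a ^ k * (X ^ ε * X) +
          a ^ (2 * k) * (2 * k) * (X ^ ε * Real.sqrt X) := by ring
      _ ≤ (k : ℝ) ^ (2 * k) * a ^ k * (a ^ k * b) + a ^ (2 * k) * (2 * k) * b := by
          refine add_le_add (mul_le_mul_of_nonneg_left h6 (by positivity))
            (mul_le_mul_of_nonneg_left hbs (by positivity))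
      _ = _ := by ring
  have h7 : (X ^ (-(ε / (4 * k)))) ^ (2 * k) = X ^ (-(ε / 2)) := by
    rw [← Real.rpow_natCast, ← Real.rpow_mul hX0.le]
    congr 1
    push_cast
    field_simp
    ring
  have h8 : X ^ ε * X ^ (-(ε / 2)) = X ^ (ε / 2) := by
    rw [← Real.rpow_add hX0]
    congr 1
    ring
  have h9 : X ^ ε * (b ^ (2 * k - 1) *
      ((k : ℝ) ^ (2 * k) * a ^ k * X + a ^ (2 * k) * (2 * k * Real.sqrt X))) ≤
      X ^ ε * (X ^ (-(ε / (4 * k))) * (a * b)) ^ (2 * k) := by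
    have h10 : b ^ (2 * k) = b ^ (2 * k - 1) * b := by
      rw [← pow_succ]
      congr 1
      omega
    calc X ^ ε * (b ^ (2 * k - 1) *
        ((k : ℝ) ^ (2 * k) * a ^ k * X + a ^ (2 * k) * (2 * k * Real.sqrt X)))
        = b ^ (2 * k - 1) * (X ^ ε *
          ((k : ℝ) ^ (2 * k) * a ^ k * X + a ^ (2 * k) * (2 * k * Real.sqrt X))) := by ring
      _ ≤ b ^ (2 * k - 1) * (((k : ℝ) ^ (2 * k) + 2 * k) * (a ^ (2 * k) * b)) :=
          mul_le_mul_of_nonneg_left h5 hbp.le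
      _ = ((k : ℝ) ^ (2 * k) + 2 * k) * (a ^ (2 * k) * b ^ (2 * k)) := by rw [h10]; ring
      _ ≤ X ^ (ε / 2) * (a ^ (2 * k) * b ^ (2 * k)) :=
          mul_le_mul_of_nonneg_right hp0 (by positivity)
      _ = _ := by
          rw [mul_pow, h7, ← h8, mul_pow]
          ring
  exact le_of_mul_le_mul_left h9 hXε

end Pool.Agent.WS
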